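import Pool.Agent.W76.MO.Stmts

set_option autoImplicit false

namespace Pool.Agent.W377.MOUS

open Finset Filter Topology
open scoped Classical
open Pool.Agent.W76.MO

/-- a subset of `N` primes of `K` if there is one, else the empty set -/
noncomputable def ch (N : ℕ) (K : Finset ℕ) : Finset ℕ :=
  if h : N ≤ (K.filter Nat.Prime).card then (Finset.exists_subset_card_eq h).choose else ∅

theorem ch_sub (N : ℕ) (K : Finset ℕ) : ch N K ⊆ K.filter Nat.Prime := by
  unfold ch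
  split_ifs with h
  · exact (Finset.exists_subset_card_eq h).choose_spec.1
  · exact Finset.empty_subset _

theorem ch_card_le (N : ℕ) (K : Finset ℕ) : (ch N K).card ≤ N := by
  unfold ch
  split_ifs with h
  · exact (Finset.exists_subset_card_eq h).choose_spec.2.le
  · simp

theorem ch_card_eq (N : ℕ) (K : Finset ℕ) (h : N ≤ (K.filter Nat.Prime).card) :
    (ch N K).card = N := by
  unfold ch
  rw [dif_pos h]
  exact (Finset.exists_subset_card_eq h).choose_spec.2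

/-- the sub-interval -/
def sb (s i l : ℕ) : Finset ℕ := Ioc (2 ^ i + l * s) (2 ^ i + (l + 1) * s)

theorem sb_mem {s i l p : ℕ} (hs : 0 < s) (hl : (l + 1) * s ≤ 2 ^ i) (hp : p ∈ sb s i l) :
    Nat.log 2 (p - 1) = i ∧ (p - 1 - 2 ^ i) / s = l := by
  unfold sb at hp
  rw [Finset.mem_Ioc] at hp
  obtain ⟨h1, h2⟩ := hp
  constructor
  · rw [Nat.log_eq_iff]
    · constructor
      · have : 2 ^ i ≤ p - 1 := by omega
        exact this
      · have : 2 ^ (i + 1) = 2 ^ i + 2 ^ i := by ring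
        omega
    · right
      exact ⟨by norm_num, by have : 0 < 2 ^ i := by positivity
                             omega⟩
  · have h3 : l * s ≤ p - 1 - 2 ^ i := by omega
    have h4 : p - 1 - 2 ^ i < (l + 1) * s := by omega
    apply le_antisymm
    · exact Nat.lt_succ_iff.mp ((Nat.div_lt_iff_lt_mul hs).mpr h4)
    · exact (Nat.le_div_iff_mul_le hs).mpr h3

theorem mem_sb_of {s i p : ℕ} (hs : 0 < s) (h1 : 2 ^ i < p) :
    p ∈ sb s i ((p - 1 - 2 ^ i) / s) := by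
  unfold sb
  rw [Finset.mem_Ioc]
  have h2 := Nat.div_add_mod (p - 1 - 2 ^ i) s
  have h3 := Nat.mod_lt (p - 1 - 2 ^ i) hs
  set d := (p - 1 - 2 ^ i) / s
  have h4 : (d + 1) * s = d * s + s := by ring
  have h5 : s * d = d * s := by ring
  constructor <;> omega

/-- lengths -/
noncomputable def ss (τ : ℝ) (i : ℕ) : ℕ := 2 ^ ⌊τ * i / 8⌋₊

noncomputable def NN (τ : ℝ) (i : ℕ) : ℕ := ss τ i / i ^ 4 + 1

theorem ss_pos (τ : ℝ) (i : ℕ) : 0 < ss τ i := by unfold ss; positivity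

/-- the control primes -/
def isU (τ : ℝ) (p : ℕ) : Prop :=
  p ∈ ch (NN τ (Nat.log 2 (p - 1))) (sb (ss τ (Nat.log 2 (p - 1))) (Nat.log 2 (p - 1))
    ((p - 1 - 2 ^ (Nat.log 2 (p - 1))) / ss τ (Nat.log 2 (p - 1))))

theorem isU_prime (τ : ℝ) (p : ℕ) (h : isU τ p) : p.Prime :=
  (Finset.mem_filter.mp (ch_sub _ _ h)).2

theorem isU_iff (τ : ℝ) {i l p : ℕ} (hl : (l + 1) * ss τ i ≤ 2 ^ i) (hp : p ∈ sb (ss τ i) i l) :
    isU τ p ↔ p ∈ ch (NN τ i) (sb (ss τ i) i l) := by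
  obtain ⟨h1, h2⟩ := sb_mem (ss_pos τ i) hl hp
  unfold isU
  rw [h1, h2]

theorem filter_isU (τ : ℝ) {i l : ℕ} (hl : (l + 1) * ss τ i ≤ 2 ^ i) :
    (sb (ss τ i) i l).filter (isU τ) = ch (NN τ i) (sb (ss τ i) i l) := by
  ext p
  rw [Finset.mem_filter]
  constructor
  · rintro ⟨h1, h2⟩
    exact (isU_iff τ hl h1).mp h2
  · intro h
    have h1 := (Finset.mem_filter.mp (ch_sub _ _ h)).1
    exact ⟨h1, (isU_iff τ hl h1).mpr h⟩

/-- a useful limit -/
theorem large (c : ℝ) (hc : 0 < c) (K : ℕ) (C : ℝ) : ∃ i₀ : ℕ, ∀ i : ℕ, i₀ ≤ i →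
    C * (i : ℝ) ^ K ≤ (2 : ℝ) ^ (c * i) := by
  have h1 : 1 < (2 : ℝ) ^ c := Real.one_lt_rpow (by norm_num) hc
  have h2 := tendsto_pow_const_div_const_pow_of_one_lt K h1
  have h3 : Tendsto (fun n : ℕ => C * ((n : ℝ) ^ K / ((2 : ℝ) ^ c) ^ n)) atTop (𝓝 (C * 0)) :=
    h2.const_mul C
  rw [mul_zero] at h3
  have h4 := h3.eventually (gt_mem_nhds (show (0 : ℝ) < 1 by norm_num))
  obtain ⟨i₀, hi₀⟩ := Filter.eventually_atTop.mp h4
  refine ⟨i₀, fun i hi => ?_⟩
  have h5 := hi₀ i hi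
  have h6 : 0 < ((2 : ℝ) ^ c) ^ i := by positivity
  have h7 : (2 : ℝ) ^ (c * i) = ((2 : ℝ) ^ c) ^ i := by
    rw [Real.rpow_mul (by norm_num), Real.rpow_natCast]
  rw [h7]
  rw [← mul_div_assoc, div_lt_one h6] at h5
  exact h5.le

theorem ss_lower (τ : ℝ) (i : ℕ) : (2 : ℝ) ^ (τ / 8 * i) ≤ 2 * (ss τ i : ℝ) := by
  have h1 : τ * i / 8 < ⌊τ * i / 8⌋₊ + 1 := Nat.lt_floor_add_one _
  unfold ss
  push_cast
  have h2 : (2 : ℝ) * 2 ^ ⌊τ * i / 8⌋₊ = (2 : ℝ) ^ ((⌊τ * i / 8⌋₊ : ℝ) + 1) := by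
    rw [Real.rpow_add (by norm_num), Real.rpow_natCast, Real.rpow_one]
    ring
  rw [h2]
  apply Real.rpow_le_rpow_of_exponent_le (by norm_num)
  linarith

theorem ss_upper (τ : ℝ) (hτ : 0 < τ) (i : ℕ) : (ss τ i : ℝ) ≤ (2 : ℝ) ^ (τ / 8 * i) := by
  have h1 : (⌊τ * i / 8⌋₊ : ℝ) ≤ τ * i / 8 := Nat.floor_le (by positivity)
  unfold ss
  push_cast
  rw [← Real.rpow_natCast]
  apply Real.rpow_le_rpow_of_exponent_le (by norm_num)
  linarith

theorem NN_lower (τ : ℝ) {i : ℕ} (hi : 1 ≤ i) : (ss τ i : ℝ) / (i : ℝ) ^ 4 ≤ NN τ i := by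
  unfold NN
  have h1 : 0 < i ^ 4 := by positivity
  have h2 : ss τ i < (ss τ i / i ^ 4 + 1) * i ^ 4 := by
    have := Nat.div_add_mod (ss τ i) (i ^ 4)
    have h3 := Nat.mod_lt (ss τ i) h1
    nlinarith
  have h3 : (ss τ i : ℝ) < ((ss τ i / i ^ 4 + 1 : ℕ) : ℝ) * (i : ℝ) ^ 4 := by exact_mod_cast h2
  have h4 : (0 : ℝ) < (i : ℝ) ^ 4 := by
    have : (0 : ℝ) < i := by exact_mod_cast hi
    positivity
  rw [div_le_iff₀ h4]
  exact h3.le

theorem NN_upper (τ : ℝ) {i : ℕ} (hi : 1 ≤ i) (hs : i ^ 4 ≤ ss τ i) :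
    (NN τ i : ℝ) ≤ 2 * (ss τ i : ℝ) / (i : ℝ) ^ 4 := by
  unfold NN
  have h4 : (0 : ℝ) < (i : ℝ) ^ 4 := by
    have : (0 : ℝ) < i := by exact_mod_cast hi
    positivity
  push_cast
  have h1 : ((ss τ i / i ^ 4 : ℕ) : ℝ) ≤ (ss τ i : ℝ) / (i : ℝ) ^ 4 := by
    have := @Nat.cast_div_le ℝ _ _ _ (ss τ i) (i ^ 4)
    push_cast at this
    exact this
  have h2 : (1 : ℝ) ≤ (ss τ i : ℝ) / (i : ℝ) ^ 4 := by
    rw [le_div_iff₀ h4, one_mul]
    exact_mod_cast hs
  have h3 : 2 * (ss τ i : ℝ) / (i : ℝ) ^ 4 = (ss τ i : ℝ) / (i : ℝ) ^ 4 + (ss τ i : ℝ) / (i : ℝ) ^ 4 := by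
    ring
  rw [h3]
  linarith

theorem up_bound (τ : ℝ) (i a L : ℕ) (hi : 1 ≤ i) (hs : i ^ 4 ≤ ss τ i) (hd : ss τ i ∣ 2 ^ i)
    (ha : 2 ^ i ≤ a) (haL : a + L ≤ 2 ^ (i + 1)) (hL : ss τ i ≤ L) :
    (((Ioc a (a + L)).filter (isU τ)).card : ℝ) ≤ 6 * L / (i : ℝ) ^ 4 := by
  set s := ss τ i with hsdef
  have hs0 : 0 < s := ss_pos τ i
  obtain ⟨M, hM⟩ := hd
  have hLpos : 0 < L := lt_of_lt_of_le hs0 hL
  set l₁ := (a - 2 ^ i) / s with hl₁
  set l₂ := (a + L - 1 - 2 ^ i) / s with hl₂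
  have hpow : 2 ^ (i + 1) = 2 ^ i + 2 ^ i := by ring
  have hsub : (Ioc a (a + L)).filter (isU τ) ⊆
      (Icc l₁ l₂).biUnion (fun l => ch (NN τ i) (sb s i l)) := by
    intro p hp
    rw [Finset.mem_filter, Finset.mem_Ioc] at hp
    obtain ⟨⟨h1, h2⟩, h3⟩ := hp
    have h4 : 2 ^ i < p := lt_of_le_of_lt ha h1
    have h5 : p ∈ sb s i ((p - 1 - 2 ^ i) / s) := mem_sb_of hs0 h4
    rw [Finset.mem_biUnion]
    refine ⟨(p - 1 - 2 ^ i) / s, ?_, ?_⟩
    · rw [Finset.mem_Icc]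
      constructor
      · apply Nat.div_le_div_right
        omega
      · apply Nat.div_le_div_right
        omega
    · refine (isU_iff τ ?_ h5).mp h3
      have h6 : (p - 1 - 2 ^ i) / s < M := by
        rw [Nat.div_lt_iff_lt_mul hs0]
        have : M * s = s * M := by ring
        omega
      calc ((p - 1 - 2 ^ i) / s + 1) * s ≤ M * s := Nat.mul_le_mul_right _ h6
        _ = 2 ^ i := by rw [hM]; ring
  have hcard : ((Ioc a (a + L)).filter (isU τ)).card ≤ (l₂ + 1 - l₁) * NN τ i := by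
    calc ((Ioc a (a + L)).filter (isU τ)).card ≤
        ((Icc l₁ l₂).biUnion (fun l => ch (NN τ i) (sb s i l))).card := Finset.card_le_card hsub
      _ ≤ (Icc l₁ l₂).card * NN τ i := Finset.card_biUnion_le_card_mul _ _ _ (fun l _ => ch_card_le _ _)
      _ = (l₂ + 1 - l₁) * NN τ i := by rw [Nat.card_Icc]
  have hl : ((l₂ + 1 - l₁ : ℕ) : ℝ) ≤ 3 * (L : ℝ) / s := by
    have hsR : (0 : ℝ) < s := by exact_mod_cast hs0
    rw [le_div_iff₀ hsR]
    have h1 : l₂ * s ≤ a + L - 1 - 2 ^ i := Nat.div_mul_le_self _ _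
    have h2 : a - 2 ^ i < (l₁ + 1) * s := by
      have := Nat.lt_div_mul_add hs0 (a := a - 2 ^ i)
      rw [← hl₁] at this
      nlinarith
    have h3 : (l₂ + 1 - l₁) * s ≤ 3 * L := by
      rcases Nat.lt_or_ge (l₂ + 1) l₁ with h | h
      · have : l₂ + 1 - l₁ = 0 := by omega
        rw [this]; omega
      · have h4 : (l₂ + 1 - l₁) * s = l₂ * s + s - l₁ * s := by
          rw [Nat.sub_mul]; ring_nf
        have h5 : (l₁ + 1) * s = l₁ * s + s := by ring
        rw [h4]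
        omega
    exact_mod_cast h3
  have hi0 : (0 : ℝ) < (i : ℝ) ^ 4 := by
    have : (0 : ℝ) < i := by exact_mod_cast hi
    positivity
  have hsR : (0 : ℝ) < s := by exact_mod_cast hs0
  calc (((Ioc a (a + L)).filter (isU τ)).card : ℝ) ≤ ((l₂ + 1 - l₁ : ℕ) : ℝ) * NN τ i := by
        exact_mod_cast hcard
    _ ≤ (3 * (L : ℝ) / s) * (2 * (s : ℝ) / (i : ℝ) ^ 4) := by
        apply mul_le_mul hl (NN_upper τ hi hs) (by positivity) (by positivity)
    _ = 6 * L / (i : ℝ) ^ 4 := by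
        field_simp
        ring

theorem cnt_split (P : ℕ → Prop) [DecidablePred P] (A s m : ℕ) : ∀ n : ℕ, m ≤ n →
    ((Ioc (A + m * s) (A + n * s)).filter P).card =
      ∑ l ∈ Ico m n, ((Ioc (A + l * s) (A + (l + 1) * s)).filter P).card := by
  intro n hn
  induction n, hn using Nat.le_induction with
  | base => simp
  | succ n hn ih =>
    rw [Finset.sum_Ico_succ_top hn, ← ih]
    have h1 : A + m * s ≤ A + n * s := Nat.add_le_add_left (Nat.mul_le_mul_right _ hn) _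
    have h2 : A + n * s ≤ A + (n + 1) * s :=
      Nat.add_le_add_left (Nat.mul_le_mul_right _ (Nat.le_succ n)) _
    rw [← Finset.Ioc_union_Ioc_eq_Ioc h1 h2, Finset.filter_union, Finset.card_union_of_disjoint]
    apply Finset.disjoint_filter_filter
    rw [Finset.disjoint_left]
    intro x hx hx'
    rw [Finset.mem_Ioc] at hx hx'
    omega

theorem us : T_US := by
  intro hB hF hRH τ δ hτ hτ' hδ hδ'
  obtain ⟨c, hc, hF⟩ := hF hRH
  have hδ4 : δ < 1 / 4 := by linarith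
  obtain ⟨i₀, hi₀, hF⟩ := hF δ δ hδ hδ4 hδ
  obtain ⟨C, hC, i₂, hi₂, hB⟩ := hB (1 / 2) (τ / 16) (by norm_num) (by linarith)
  obtain ⟨i₃, hi₃⟩ := large (τ / 8) (by linarith) 4 2
  obtain ⟨i₄, hi₄⟩ := large (τ / 16) (by linarith) 0 2
  obtain ⟨i₅, hi₅⟩ := exists_nat_ge (4 / c)
  have key : ∀ i : ℕ, i₃ + i₄ + 1 ≤ i → i ^ 4 ≤ ss τ i ∧ (2 : ℝ) ^ (τ / 16 * i) ≤ ss τ i ∧
      ss τ i ∣ 2 ^ i ∧ ss τ i ∣ hh δ i := by
    intro i hi
    have h1 := hi₃ i (by omega)
    have h2 := hi₄ i (by omega)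
    have h3 := ss_lower τ i
    refine ⟨?_, ?_, ?_, ?_⟩
    · have : (i : ℝ) ^ 4 ≤ ss τ i := by linarith
      exact_mod_cast this
    · have h4 : (2 : ℝ) ^ (τ / 8 * i) = (2 : ℝ) ^ (τ / 16 * i) * (2 : ℝ) ^ (τ / 16 * i) := by
        rw [← Real.rpow_add (by norm_num)]
        congr 1
        ring
      have h5 : (0 : ℝ) < (2 : ℝ) ^ (τ / 16 * i) := by positivity
      rw [pow_zero, mul_one] at h2
      nlinarith
    · unfold ss
      apply pow_dvd_pow
      apply Nat.floor_le_of_le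
      have : (0 : ℝ) ≤ i := Nat.cast_nonneg _
      nlinarith
    · unfold ss hh
      apply pow_dvd_pow
      apply Nat.floor_le_floor
      have : (0 : ℝ) ≤ i := Nat.cast_nonneg _
      nlinarith
  refine ⟨isU τ, 6, c / (2 * C), i₀ + i₂ + i₃ + i₄ + i₅ + 1, by norm_num, by positivity, by omega,
    isU_prime τ, ?_, ?_⟩
  · intro i hi a L ha haL hL
    obtain ⟨k1, k2, k3, k4⟩ := key i (by omega)
    refine up_bound τ i a L (by omega) k1 k3 ha haL ?_
    have h1 := ss_upper τ hτ i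
    have h2 : (2 : ℝ) ^ (τ / 8 * i) ≤ (2 : ℝ) ^ (τ / 4 * i) := by
      apply Real.rpow_le_rpow_of_exponent_le (by norm_num)
      have : (0 : ℝ) ≤ i := Nat.cast_nonneg _
      nlinarith
    have : (ss τ i : ℝ) ≤ L := by linarith
    exact_mod_cast this
  · intro i hi
    obtain ⟨k1, k2, k3, k4⟩ := key i (by omega)
    have hF' := hF i (by omega)
    have e1 : (2 * δ + δ) * (i : ℝ) = 3 * δ * i := by ring
    rw [e1] at hF'
    refine le_trans ?_ hF'
    have hi1 : 1 ≤ i := by omega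
    have hiR : (0 : ℝ) < i := by exact_mod_cast hi1
    have hi1R : (1 : ℝ) ≤ i := by exact_mod_cast hi1
    obtain ⟨r, hr⟩ := k4
    set s := ss τ i with hsdef
    have hs0 : 0 < s := ss_pos τ i
    have hsR : (0 : ℝ) < s := by exact_mod_cast hs0
    have hh0 : 0 < hh δ i := by unfold hh; positivity
    have hhR : (0 : ℝ) < hh δ i := by exact_mod_cast hh0
    have hrR : (hh δ i : ℝ) = s * r := by exact_mod_cast hr
    norm_cast
    apply Finset.card_le_card
    intro k hk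
    rw [Finset.mem_filter] at hk ⊢
    refine ⟨hk.1, ?_⟩
    by_contra hcon
    rw [not_lt] at hcon
    have hk1 : k < nc δ i := Finset.mem_range.mp hk.1
    have hkb : (k + 1) * hh δ i ≤ 2 ^ i := by
      calc (k + 1) * hh δ i ≤ nc δ i * hh δ i := Nat.mul_le_mul_right _ hk1
        _ ≤ 2 ^ i := Nat.div_mul_le_self _ _
    have hcell : cell δ i k = Ioc (2 ^ i + (k * r) * s) (2 ^ i + ((k + 1) * r) * s) := by
      unfold cell
      rw [hr]
      congr 1 <;> ring
    have hle : k * r ≤ (k + 1) * r := Nat.mul_le_mul_right _ (Nat.le_succ k)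
    have hP := cnt_split Nat.Prime (2 ^ i) s (k * r) ((k + 1) * r) hle
    have hU := cnt_split (isU τ) (2 ^ i) s (k * r) ((k + 1) * r) hle
    rw [← hcell] at hP hU
    have hN1 := NN_lower τ hi1
    have hN2 := NN_upper τ hi1 k1
    rw [← hsdef] at hN1 hN2
    have hNpos : (0 : ℝ) < NN τ i := by
      unfold NN
      positivity
    have hterm : ∀ l ∈ Ico (k * r) ((k + 1) * r),
        (((Ioc (2 ^ i + l * s) (2 ^ i + (l + 1) * s)).filter Nat.Prime).card : ℝ) ≤
          (C * (i : ℝ) ^ 3) *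
            (((Ioc (2 ^ i + l * s) (2 ^ i + (l + 1) * s)).filter (isU τ)).card : ℝ) + NN τ i := by
      intro l hl
      rw [Finset.mem_Ico] at hl
      have hl2 : (l + 1) * s ≤ 2 ^ i := by
        calc (l + 1) * s ≤ ((k + 1) * r) * s := Nat.mul_le_mul_right _ hl.2
          _ = (k + 1) * hh δ i := by rw [hr]; ring
          _ ≤ 2 ^ i := hkb
      have h1 : (Ioc (2 ^ i + l * s) (2 ^ i + (l + 1) * s)).filter (isU τ) =
          ch (NN τ i) (sb s i l) := filter_isU τ hl2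
      rw [h1]
      by_cases hrich : NN τ i ≤ ((sb s i l).filter Nat.Prime).card
      · rw [ch_card_eq _ _ hrich]
        have h2 : (2 : ℝ) ^ (τ / 16 * (i : ℝ)) ≤ s := k2
        have h3 := hB i (by omega) (2 ^ i + l * s) s h2
        have h4 : (((Ioc (2 ^ i + l * s) (2 ^ i + (l + 1) * s)).filter Nat.Prime).card : ℝ) ≤
            C * s / i := by
          refine le_trans ?_ h3
          norm_cast
          have h5 : 2 ^ i + (l + 1) * s = 2 ^ i + l * s + s := by ring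
          rw [h5]
          apply Finset.card_le_card
          intro p hp
          rw [Finset.mem_filter] at hp ⊢
          refine ⟨hp.1, ?_⟩
          intro q hq hqp
          have h6 : q = p := (Nat.prime_dvd_prime_iff_eq hq hp.2).mp hqp
          rw [h6]
          have h7 : 2 ^ i < p := by
            have := (Finset.mem_Ioc.mp hp.1).1
            omega
          have h8 : (2 : ℝ) ^ i < p := by exact_mod_cast h7
          have h9 : (2 : ℝ) ^ (1 / 2 * (i : ℝ)) ≤ (2 : ℝ) ^ i := by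
            rw [← Real.rpow_natCast]
            apply Real.rpow_le_rpow_of_exponent_le (by norm_num)
            linarith
          linarith
        have h5 : C * s / i ≤ C * (i : ℝ) ^ 3 * (NN τ i : ℝ) := by
          have h6 : C * (i : ℝ) ^ 3 * ((s : ℝ) / (i : ℝ) ^ 4) = C * s / i := by
            field_simp
          rw [← h6]
          apply mul_le_mul_of_nonneg_left hN1 (by positivity)
        linarith
      · rw [not_le] at hrich
        have h2 : (((sb s i l).filter Nat.Prime).card : ℝ) ≤ NN τ i := by exact_mod_cast hrich.le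
        have h3 : (0 : ℝ) ≤ (C * (i : ℝ) ^ 3) * ((ch (NN τ i) (sb s i l)).card : ℝ) := by positivity
        have h4 : (sb s i l) = Ioc (2 ^ i + l * s) (2 ^ i + (l + 1) * s) := rfl
        rw [h4] at h2
        linarith [h2, h3]
    have hsum := Finset.sum_le_sum hterm
    rw [Finset.sum_add_distrib, ← Finset.mul_sum, Finset.sum_const, Nat.card_Ico] at hsum
    have hcr : (k + 1) * r - k * r = r := by
      rw [Nat.add_mul, one_mul, Nat.add_sub_cancel_left]
    rw [hcr, nsmul_eq_mul] at hsum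
    have hP' : (((cell δ i k).filter Nat.Prime).card : ℝ) =
        ∑ l ∈ Ico (k * r) ((k + 1) * r),
          (((Ioc (2 ^ i + l * s) (2 ^ i + (l + 1) * s)).filter Nat.Prime).card : ℝ) := by
      rw [hP]
      push_cast
      rfl
    have hU' : (((cell δ i k).filter (isU τ)).card : ℝ) =
        ∑ l ∈ Ico (k * r) ((k + 1) * r),
          (((Ioc (2 ^ i + l * s) (2 ^ i + (l + 1) * s)).filter (isU τ)).card : ℝ) := by
      rw [hU]
      push_cast
      rfl
    rw [← hP', ← hU'] at hsum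
    have hlt := hk.2
    push_cast at hlt
    have h10 : (r : ℝ) * NN τ i ≤ c / 2 * (hh δ i) / i := by
      have h11 : (r : ℝ) * NN τ i ≤ r * (2 * s / (i : ℝ) ^ 4) := by
        apply mul_le_mul_of_nonneg_left hN2 (by positivity)
      refine le_trans h11 ?_
      have h12 : (r : ℝ) * (2 * s / (i : ℝ) ^ 4) = 2 * hh δ i / (i : ℝ) ^ 4 := by
        rw [hrR]
        ring
      rw [h12, div_le_div_iff₀ (by positivity) hiR]
      have h13 : (i₅ : ℝ) ≤ i := by
        have : i₅ ≤ i := by omega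
        exact_mod_cast this
      have h14 : 4 ≤ c * i := by
        have : 4 / c ≤ i := by linarith
        rw [div_le_iff₀ hc] at this
        linarith
      have h15 : (1 : ℝ) ≤ (i : ℝ) ^ 2 := one_le_pow₀ hi1R
      have h16 : 4 ≤ c * (i : ℝ) ^ 3 := by
        have : c * (i : ℝ) ^ 3 = (c * i) * (i : ℝ) ^ 2 := by ring
        rw [this]
        nlinarith
      have h17 : (0 : ℝ) ≤ (hh δ i : ℝ) * i := by positivity
      have h18 : c / 2 * (hh δ i : ℝ) * (i : ℝ) ^ 4 = (c * (i : ℝ) ^ 3) / 2 * ((hh δ i : ℝ) * i) := by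
        ring
      rw [h18]
      nlinarith
    have h20 : (C * (i : ℝ) ^ 3) * (((cell δ i k).filter (isU τ)).card : ℝ) <
        (C * (i : ℝ) ^ 3) * (c / (2 * C) * hh δ i / (i : ℝ) ^ 4) :=
      mul_lt_mul_of_pos_left hlt (by positivity)
    have h21 : (C * (i : ℝ) ^ 3) * (c / (2 * C) * hh δ i / (i : ℝ) ^ 4) = c / 2 * hh δ i / i := by
      field_simp
    rw [h21] at h20
    have h22 : c * (hh δ i : ℝ) / i = c / 2 * hh δ i / i + c / 2 * hh δ i / i := by ring
    linarith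

end Pool.Agent.W377.MOUS
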